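import Mathlib

namespace Pool.Agent.Results.MP_09fe95_al.Summand

open scoped TensorProduct

variable {k M : Type} [Field k] [Monoid M]

/-- The `n`-th tensor power of a representation of the monoid `M`, with diagonal action. -/
noncomputable def tpow {V : Type} [AddCommGroup V] [Module k V] (ρ : Representation k M V)
    (n : ℕ) : Representation k M (⨂[k] _ : Fin n, V) where
  toFun m := PiTensorProduct.map (fun _ => ρ m)
  map_one' := by simp only [map_one]; exact PiTensorProduct.map_one
  map_mul' a b := by simp only [map_mul]; exact PiTensorProduct.map_mul _ _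

open Classical in
/-- The action of `m` on `Ind(W)`: units act as on `W`, non-units act as zero. -/
noncomputable def indAct {W : Type} [AddCommGroup W] [Module k W] (σ : Representation k Mˣ W)
    (m : M) : W →ₗ[k] W :=
  if h : IsUnit m then σ h.unit else 0

/-- `Ind(W)` is isomorphic to a direct summand of the `kM`-module `T`. -/
def IndIsSummand {W T : Type} [AddCommGroup W] [Module k W] [AddCommGroup T] [Module k T]
    (σ : Representation k Mˣ W) (τ : Representation k M T) : Prop :=
  ∃ (i : W →ₗ[k] T) (p : T →ₗ[k] W), p ∘ₗ i = LinearMap.id ∧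
    (∀ m, i ∘ₗ indAct σ m = τ m ∘ₗ i) ∧ ∀ m, p ∘ₗ τ m = indAct σ m ∘ₗ p

section

variable {V : Type} [AddCommGroup V] [Module k V]

theorem dual_one (v : V) (hv : v ≠ 0) : ∃ φ : V →ₗ[k] k, φ v = 1 := by
  obtain ⟨φ, h, _⟩ := Submodule.exists_dual_map_eq_bot_of_notMem
    (show v ∉ (⊥ : Submodule k V) from hv) inferInstance
  exact ⟨(φ v)⁻¹ • φ, by simp [inv_mul_cancel₀ h]⟩

theorem not_unit [Finite M] (ρ : Representation k M V) (h : ∀ m, ρ m = 1 → m = 1) (m : M)
    (hm : ¬ IsUnit m) : ¬ IsUnit (ρ m) := by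
  intro hu
  obtain ⟨a, b, hab, he⟩ := Finite.exists_ne_map_eq_of_infinite (fun j : ℕ => m ^ j)
  wlog hlt : a < b generalizing a b
  · exact this b a hab.symm he.symm (lt_of_le_of_ne (not_lt.1 hlt) hab.symm)
  obtain ⟨d, rfl⟩ := Nat.exists_eq_add_of_lt hlt
  have h1 : ρ m ^ a * 1 = ρ m ^ a * ρ (m ^ (d + 1)) := by
    rw [mul_one, ← map_pow, ← map_mul, ← pow_add, ← add_assoc]
    exact congrArg ρ he
  have h2 := h _ ((hu.pow a).mul_left_cancel h1).symm
  exact hm (IsUnit.of_pow_eq_one h2 (Nat.succ_ne_zero d))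

theorem pair [Finite M] [FiniteDimensional k V] [Nontrivial V] (ρ : Representation k M V)
    (h : ∀ m, ρ m = 1 → m = 1) (m : M) (b : Bool) : ∃ (v : V) (φ : V →ₗ[k] k), φ v = 1 ∧
      (IsUnit m → (¬ ∃ c : k, ρ m = c • 1) → φ (ρ m v) = 0) ∧
      (¬ IsUnit m → b = false → ρ m v = 0) ∧ (¬ IsUnit m → b = true → ∀ x, φ (ρ m x) = 0) := by
  by_cases hm : IsUnit m
  · by_cases hc : ∃ c : k, ρ m = c • 1
    · obtain ⟨v, hv⟩ := exists_ne (0 : V)
      obtain ⟨φ, hφ⟩ := dual_one (k := k) v hv
      exact ⟨v, φ, hφ, fun _ h => absurd hc h, fun h => absurd hm h, fun h => absurd hm h⟩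
    · have h1 : ∃ v, v ∉ k ∙ (ρ m v) := by
        by_contra h2
        push Not at h2
        apply hc
        have h3 : ∀ v, ¬ LinearIndependent k ![v, ρ m v] := by
          intro v hli
          rw [LinearIndependent.pair_symm_iff, linearIndependent_fin2] at hli
          obtain ⟨a, ha⟩ := Submodule.mem_span_singleton.1 (h2 v)
          have ha0 : a ≠ 0 := by
            rintro rfl
            exact hli.1 (by simpa using ha.symm)
          apply hli.2 a⁻¹
          simp only [Matrix.cons_val_one, Matrix.cons_val_zero]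
          nth_rewrite 1 [← ha]
          rw [smul_smul, inv_mul_cancel₀ ha0, one_smul]
        exact LinearMap.exists_eq_smul_id_of_forall_notLinearIndependent h3
      obtain ⟨v, hv⟩ := h1
      obtain ⟨φ, h1, h2⟩ := Submodule.exists_dual_map_eq_bot_of_notMem hv inferInstance
      refine ⟨v, (φ v)⁻¹ • φ, by simp [inv_mul_cancel₀ h1], fun _ _ => ?_, fun h => absurd hm h,
        fun h => absurd hm h⟩
      have : φ (ρ m v) ∈ Submodule.map φ (k ∙ (ρ m v)) :=
        Submodule.mem_map_of_mem (Submodule.mem_span_singleton_self _)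
      rw [h2, Submodule.mem_bot] at this
      simp [this]
  · have hu := not_unit ρ h m hm
    cases b
    · rw [LinearMap.isUnit_iff_ker_eq_bot] at hu
      obtain ⟨v, hv, hv0⟩ := Submodule.exists_mem_ne_zero_of_ne_bot hu
      obtain ⟨φ, hφ⟩ := dual_one (k := k) v hv0
      exact ⟨v, φ, hφ, fun h => absurd h hm, fun _ _ => hv, fun _ h => by simp at h⟩
    · rw [LinearMap.isUnit_iff_range_eq_top] at hu
      obtain ⟨v, hv⟩ : ∃ v, v ∉ LinearMap.range (ρ m) := by
        by_contra h2
        push Not at h2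
        exact hu (eq_top_iff.2 fun x _ => h2 x)
      obtain ⟨φ, h1, h2⟩ := Submodule.exists_dual_map_eq_bot_of_notMem hv inferInstance
      refine ⟨v, (φ v)⁻¹ • φ, by simp [inv_mul_cancel₀ h1], fun h => absurd h hm,
        fun _ h => by simp at h, fun _ _ x => ?_⟩
      have : φ (ρ m x) ∈ Submodule.map φ (LinearMap.range (ρ m)) :=
        Submodule.mem_map_of_mem ⟨x, rfl⟩
      rw [h2, Submodule.mem_bot] at this
      simp [this]

/-- units acting as scalars -/
def scal (ρ : Representation k M V) : Subgroup Mˣ where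
  carrier := {g | ∃ c : k, ρ g = c • 1}
  mul_mem' := by
    rintro a b ⟨c, hc⟩ ⟨d, hd⟩
    exact ⟨c * d, by rw [Units.val_mul, map_mul, hc, hd]; simp [smul_smul, mul_comm]⟩
  one_mem' := ⟨1, by simp⟩
  inv_mem' := by
    rintro a ⟨c, hc⟩
    have h1 : ρ (a⁻¹ : Mˣ) * ρ a = 1 := by rw [← map_mul]; simp
    rw [hc, mul_smul_comm, mul_one] at h1
    by_cases h0 : c = 0
    · refine ⟨0, ?_⟩
      rw [h0, zero_smul] at h1
      rw [zero_smul, ← mul_one (ρ _), ← h1, mul_zero]
    · exact ⟨c⁻¹, by rw [← h1, smul_smul, inv_mul_cancel₀ h0, one_smul]⟩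

theorem card_ne [Finite M] [Nontrivial V] (ρ : Representation k M V) (h : ∀ m, ρ m = 1 → m = 1) :
    (Nat.card (scal ρ) : k) ≠ 0 := by
  intro h0
  have h1 : ringChar k ∣ Nat.card (scal ρ) := (ringChar.spec k _).1 h0
  rcases CharP.char_is_prime_or_zero k (ringChar k) with hp | hp
  · have : Fact (ringChar k).Prime := ⟨hp⟩
    obtain ⟨z, hz⟩ := exists_prime_orderOf_dvd_card' (ringChar k) h1
    obtain ⟨c, hc⟩ := z.2
    have h2 : (z.1 : M) ^ ringChar k = 1 := by
      have := pow_orderOf_eq_one z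
      rw [hz] at this
      exact_mod_cast congrArg (fun y : scal ρ => (y.1 : M)) this
    have h3 : (c ^ ringChar k) • (1 : V →ₗ[k] V) = (1 : k) • 1 := by
      rw [← one_pow (ringChar k), ← smul_pow, ← hc, ← map_pow, h2]; simp
    have h4 : c ^ ringChar k = 1 := smul_left_injective k one_ne_zero h3
    have h5 : c = 1 := by
      have : (c - 1) ^ ringChar k = 0 := by rw [sub_pow_char, h4]; simp
      exact sub_eq_zero.1 (pow_eq_zero_iff hp.ne_zero |>.1 this)
    have h6 : z = 1 := Subtype.ext (Units.ext (h _ (by rw [hc, h5, one_smul])))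
    rw [h6, orderOf_one] at hz
    exact hp.one_lt.ne hz
  · rw [hp, zero_dvd_iff] at h1
    exact Nat.card_pos.ne' h1

end

theorem result (k M V : Type) [Field k] [IsAlgClosed k] [Monoid M] [Finite M] [AddCommGroup V]
    [Module k V] [FiniteDimensional k V] [Nontrivial V] (ρ : Representation k M V)
    (h : ∀ m, ρ m = 1 → m = 1) :
    ∃ n : ℕ, 1 ≤ n ∧ ∃ (W : Type) (_ : AddCommGroup W) (_ : Module k W)
      (σ : Representation k Mˣ W), FiniteDimensional k W ∧ Nontrivial W ∧
      IndIsSummand σ (tpow ρ n) := by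
  classical
  let : Fintype Mˣ := Fintype.ofFinite _
  choose v φ h1 h2 h3 h4 using pair ρ h
  set n := Nat.card (M × Bool) with hn
  let e : M × Bool ≃ Fin n := Finite.equivFin _
  set τ := tpow ρ n with hτ
  let w : ⨂[k] _ : Fin n, V := PiTensorProduct.tprod k fun j => v (e.symm j).1 (e.symm j).2
  let Φ : (⨂[k] _ : Fin n, V) →ₗ[k] k := PiTensorProduct.lift
    ((MultilinearMap.mkPiAlgebra k (Fin n) k).compLinearMap fun j => φ (e.symm j).1 (e.symm j).2)
  have hΦ : ∀ x : Fin n → V, Φ (PiTensorProduct.tprod k x) =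
      ∏ j, φ (e.symm j).1 (e.symm j).2 (x j) := by intro x; simp [Φ]
  have hτx : ∀ m (x : Fin n → V), τ m (PiTensorProduct.tprod k x) =
      PiTensorProduct.tprod k fun j => ρ m (x j) := fun m x => PiTensorProduct.map_tprod _ _
  have a1 : Φ w = 1 := by simp [w, hΦ, h1]
  have a2 : ∀ m, ¬ IsUnit m → τ m w = 0 := by
    intro m hm
    rw [hτx]
    apply MultilinearMap.map_coord_zero _ (e (m, false))
    simpa using h3 m false hm rfl
  have a3 : ∀ m, ¬ IsUnit m → ∀ x, Φ (τ m x) = 0 := by
    intro m hm x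
    induction x using PiTensorProduct.induction_on with
    | smul_tprod r x =>
      rw [map_smul, map_smul, hτx, hΦ, Finset.prod_eq_zero (Finset.mem_univ (e (m, true))),
        smul_zero]
      simpa using h4 m true hm rfl _
    | add x y hx hy => rw [map_add, map_add, hx, hy, add_zero]
  have a4 : ∀ g : Mˣ, Φ (τ (g⁻¹ : Mˣ) w) • τ g w = if g ∈ scal ρ then w else 0 := by
    intro g
    split_ifs with hg
    · obtain ⟨c, hc⟩ := (scal ρ).inv_mem hg
      have e1 : τ (g⁻¹ : Mˣ) w = (∏ _j : Fin n, c) • w := by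
        rw [hτx, hc]
        exact (PiTensorProduct.tprod k).map_smul_univ (fun _ => c) _
      have e2 : τ g (τ (g⁻¹ : Mˣ) w) = w := by
        rw [← Module.End.mul_apply, ← map_mul]; simp
      rw [e1, map_smul] at e2
      rw [e1, map_smul, a1, smul_eq_mul, mul_one, e2]
    · rw [hτx, hΦ, Finset.prod_eq_zero (Finset.mem_univ (e ((g⁻¹ : Mˣ), false))), zero_smul]
      have := h2 (g⁻¹ : Mˣ) false (Units.isUnit _) (fun hc => hg (by
        simpa using (scal ρ).inv_mem (x := g⁻¹) hc))
      simpa using this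
  let P : (⨂[k] _ : Fin n, V) →ₗ[k] (⨂[k] _ : Fin n, V) := (Nat.card (scal ρ) : k)⁻¹ •
    ∑ g : Mˣ, (Φ ∘ₗ τ (g⁻¹ : Mˣ)).smulRight (τ g w)
  have hP : ∀ x, P x = (Nat.card (scal ρ) : k)⁻¹ • ∑ g : Mˣ, Φ (τ (g⁻¹ : Mˣ) x) • τ g w := by
    intro x; simp [P]
  have b1 : P w = w := by
    rw [hP]
    simp only [a4]
    rw [← Finset.sum_filter, Finset.sum_const, ← Nat.cast_smul_eq_nsmul k, smul_smul,
      Nat.card_eq_fintype_card, Fintype.card_subtype, inv_mul_cancel₀, one_smul]
    have := card_ne ρ h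
    rwa [Nat.card_eq_fintype_card, Fintype.card_subtype] at this
  have b2 : ∀ (u : Mˣ) x, P (τ u x) = τ u (P x) := by
    intro u x
    rw [hP, hP, map_smul, map_sum, ← Equiv.sum_comp (Equiv.mulLeft u)]
    congr 1
    apply Finset.sum_congr rfl
    intro g _
    simp only [Equiv.coe_mulLeft, map_smul, ← Module.End.mul_apply, ← map_mul, mul_inv_rev,
      Units.val_mul, Units.inv_mul_cancel_right]
  have b3 : ∀ x, P (P x) = P x := by
    intro x
    rw [hP x, map_smul, map_sum]
    simp only [map_smul, b2, b1]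
  have nu1 : ∀ m : M, ¬ IsUnit m → ∀ g : Mˣ, ¬ IsUnit (m * g) := fun m hm g hu =>
    hm ((Units.isUnit_mul_units m g).1 hu)
  have nu2 : ∀ m : M, ¬ IsUnit m → ∀ g : Mˣ, ¬ IsUnit (g * m) := fun m hm g hu =>
    hm ((Units.isUnit_units_mul g m).1 hu)
  have b4 : ∀ m, ¬ IsUnit m → ∀ x, τ m (P x) = 0 := by
    intro m hm x
    rw [hP, map_smul, map_sum]
    rw [Finset.sum_eq_zero, smul_zero]
    intro g _
    rw [map_smul, ← Module.End.mul_apply (τ m), ← map_mul, a2 _ (nu1 m hm _), smul_zero]
  have b5 : ∀ m, ¬ IsUnit m → ∀ x, P (τ m x) = 0 := by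
    intro m hm x
    rw [hP]
    rw [Finset.sum_eq_zero, smul_zero]
    intro g _
    rw [← Module.End.mul_apply (τ _) (τ m), ← map_mul, a3 _ (nu2 m hm _), zero_smul]
  have inv : ∀ g : Mˣ, ∀ x ∈ LinearMap.range P, τ g x ∈ LinearMap.range P := by
    rintro g _ ⟨x, rfl⟩
    exact ⟨τ g x, b2 g x⟩
  let σ : Representation k Mˣ (LinearMap.range P) :=
    { toFun := fun g => (τ g).restrict (inv g)
      map_one' := by ext x; simp
      map_mul' := fun a b => by ext x; simp }
  refine ⟨n, Nat.card_pos, LinearMap.range P, inferInstance, inferInstance, σ, ?_,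
    ⟨⟨⟨w, w, b1⟩, 0, fun h0 => ?_⟩⟩, (LinearMap.range P).subtype, P.rangeRestrict, ?_, ?_, ?_⟩
  · have : LinearMap.range P ≤ Submodule.span k (Set.range fun g : Mˣ => τ g w) := by
      rintro _ ⟨x, rfl⟩
      rw [hP]
      exact Submodule.smul_mem _ _ (Submodule.sum_mem _ fun g _ =>
        Submodule.smul_mem _ _ (Submodule.subset_span ⟨g, rfl⟩))
    have h5 : FiniteDimensional k (Submodule.span k (Set.range fun g : Mˣ => τ g w)) :=
      FiniteDimensional.span_of_finite k (Set.finite_range _)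
    exact Submodule.finiteDimensional_of_le this
  · have : w = 0 := congrArg Subtype.val h0
    rw [this, map_zero] at a1
    exact zero_ne_one a1
  · ext ⟨_, x, rfl⟩
    exact b3 x
  · intro m
    ext ⟨_, x, rfl⟩
    by_cases hm : IsUnit m
    · obtain ⟨u, rfl⟩ := hm
      unfold indAct
      rw [dif_pos u.isUnit, IsUnit.unit_of_val_units]
      rfl
    · unfold indAct
      rw [dif_neg hm]
      exact (b4 m hm x).symm
  · intro m
    apply LinearMap.ext
    intro x
    apply Subtype.ext
    by_cases hm : IsUnit m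
    · obtain ⟨u, rfl⟩ := hm
      unfold indAct
      rw [dif_pos u.isUnit, IsUnit.unit_of_val_units]
      exact b2 u x
    · unfold indAct
      rw [dif_neg hm]
      exact b5 m hm x

end Pool.Agent.Results.MP_09fe95_al.Summand
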